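import Pool.Agent.H93.ES.Targets

/-!
# Row (ENB): the entropy of the words of the blocks
-/

set_option autoImplicit false

open Finset Pool.Agent.H18.MR Pool.Agent.H93.DE Pool.Agent.H6.N4D Pool.Agent.H93 Pool.Agent.H93.ES

namespace Pool.Agent.H89.ES

/-- the error of the model on one window -/
noncomputable def enb_er (lam : ℕ → ℝ) (R S : ℕ) (b : ℕ → ℕ → ℂ) (β : ℕ → ℕ → ℝ) (n : ℕ) : ℝ :=
  (∑ m ∈ Ioc n (n + S), ‖(lam m : ℂ) - ∑ r ∈ range R, b n r * ee (β n r * m)‖ ^ 2) / S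

theorem enb_er_nonneg (lam : ℕ → ℝ) (R S : ℕ) (b : ℕ → ℕ → ℂ) (β : ℕ → ℕ → ℝ) (n : ℕ) :
    0 ≤ enb_er lam R S b β n := by
  unfold enb_er
  positivity

theorem enb_sg (b : Bool) : |sg b| = 1 := by
  unfold sg
  cases b <;> simp

theorem enb_ltr (N i : ℕ) [NeZero N] (lam : ℕ → ℝ) (k : ZMod N) (t : ℕ) (hi : 1 ≤ i)
    (hlam : ∀ n, 1 ≤ n → lam n = 1 ∨ lam n = -1) (ht : k.val + t < N) :
    ltr (blk lam N i) k t = lam (i * N + k.val + t) := by
  have hN : 0 < N := NeZero.pos N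
  have h1 : ((t : ℕ) : ZMod N).val = t := ZMod.val_natCast_of_lt (by omega)
  have h2 : (k + ((t : ℕ) : ZMod N)).val = k.val + t := by
    rw [ZMod.val_add_of_lt (by rw [h1]; exact ht), h1]
  unfold ltr blk
  rw [h2, ← add_assoc]
  have hpos : 1 ≤ i * N + k.val + t := by
    have : 0 < i * N := Nat.mul_pos hi hN
    omega
  rcases hlam _ hpos with h | h
  · rw [h]
    unfold sg
    simp
  · rw [h]
    unfold sg
    norm_num

theorem enb_window (f : ℕ → ℝ) (n S : ℕ) (hn : 1 ≤ n) :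
    ∑ m ∈ Ioc (n - 1) (n - 1 + S), f m = ∑ t ∈ range S, f (n + t) := by
  have h : Ioc (n - 1) (n - 1 + S) = Ico n (n + S) := by
    ext m
    rw [Finset.mem_Ioc, Finset.mem_Ico]
    omega
  rw [h, Finset.sum_Ico_eq_sum_range, Nat.add_sub_cancel_left]

theorem enb_zmod (N : ℕ) [NeZero N] (G : ℕ → ℝ) :
    ∑ k : ZMod N, G k.val = ∑ k ∈ range N, G k := by
  refine Finset.sum_nbij' (fun k => k.val) (fun j => ((j : ℕ) : ZMod N)) ?_ ?_ ?_ ?_ ?_
  · intro k _
    exact Finset.mem_range.mpr (ZMod.val_lt k)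
  · intro j _
    exact Finset.mem_univ _
  · intro k _
    exact ZMod.natCast_zmod_val k
  · intro j hj
    exact ZMod.val_natCast_of_lt (Finset.mem_range.mp hj)
  · intro k _
    rfl

theorem enb_bad (N S : ℕ) :
    ∑ k ∈ range N, (if k + S ≤ N then (0 : ℝ) else 1) ≤ S := by
  have h1 : ∑ k ∈ range N, (if k + S ≤ N then (0 : ℝ) else 1) =
      (((range N).filter (fun k => ¬ k + S ≤ N)).card : ℝ) := by
    rw [Finset.card_filter]
    push_cast
    apply Finset.sum_congr rfl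
    intro k _
    by_cases h : k + S ≤ N
    · rw [if_pos h, if_neg (not_not.mpr h)]
    · rw [if_neg h, if_pos h]
  rw [h1]
  have h2 : ((range N).filter (fun k => ¬ k + S ≤ N)) ⊆ (range S).image (fun j => N - 1 - j) := by
    intro k hk
    rw [Finset.mem_filter, Finset.mem_range] at hk
    rw [Finset.mem_image]
    exact ⟨N - 1 - k, Finset.mem_range.mpr (by omega), by omega⟩
  have h3 := (Finset.card_le_card h2).trans Finset.card_image_le
  rw [Finset.card_range] at h3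
  exact_mod_cast h3

theorem enb_block (δ D : ℝ) (hδ : 0 < δ) (R s N i : ℕ) [NeZero N]
    (hW : ∀ (x : ZMod N → Bool) (b : ZMod N → ℕ → ℂ) (β : ZMod N → ℕ → ℝ) (E : ZMod N → ℝ),
      (∀ n r, ‖b n r‖ ≤ 1) →
      (∀ n, (∑ t ∈ range (2 ^ s), ‖(ltr x n t : ℂ) - ∑ r ∈ range R, b n r * ee (β n r * t)‖ ^ 2) /
        2 ^ s ≤ E n) →
      ent (unif N) (fun n => wd x (2 ^ s) n) / 2 ^ s ≤ D + avZ E / δ)
    (lam : ℕ → ℝ) (hi : 1 ≤ i) (hlam : ∀ n, 1 ≤ n → lam n = 1 ∨ lam n = -1)
    (b : ℕ → ℕ → ℂ) (β : ℕ → ℕ → ℝ) (hb : ∀ n r, ‖b n r‖ ≤ 1) :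
    ent (unif N) (fun n => wd (blk lam N i) (2 ^ s) n) / 2 ^ s ≤
      D + ((∑ k ∈ range N, enb_er lam R (2 ^ s) b β (i * N + k - 1)) / N + 2 ^ s / N) / δ := by
  have hN : 0 < N := NeZero.pos N
  have hNR : (0 : ℝ) < N := by exact_mod_cast hN
  have hiN : 0 < i * N := Nat.mul_pos hi hN
  have h1 := hW (blk lam N i)
    (fun k r => if k.val + 2 ^ s ≤ N then
      b (i * N + k.val - 1) r * ee (β (i * N + k.val - 1) r * ((i * N + k.val : ℕ) : ℝ)) else 0)
    (fun k r => β (i * N + k.val - 1) r)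
    (fun k => if k.val + 2 ^ s ≤ N then enb_er lam R (2 ^ s) b β (i * N + k.val - 1) else 1)
    (fun k r => by
      by_cases hk : k.val + 2 ^ s ≤ N
      · simp only [if_pos hk]
        rw [norm_mul, norm_ee, mul_one]
        exact hb _ _
      · simp only [if_neg hk]
        simp)
    (fun k => by
      by_cases hk : k.val + 2 ^ s ≤ N
      · simp only [if_pos hk]
        unfold enb_er
        rw [enb_window (fun m => ‖(lam m : ℂ) - ∑ r ∈ range R, b (i * N + k.val - 1) r *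
          ee (β (i * N + k.val - 1) r * m)‖ ^ 2) (i * N + k.val) (2 ^ s) (by omega)]
        push_cast
        refine le_of_eq ?_
        congr 1
        apply Finset.sum_congr rfl
        intro t ht
        have ht' := Finset.mem_range.mp ht
        rw [enb_ltr N i lam k t hi hlam (by omega)]
        congr 3
        apply Finset.sum_congr rfl
        intro r _
        rw [mul_assoc, ← ee_add]
        congr 2
        ring
      · simp only [if_neg hk]
        have h2 : ∑ t ∈ range (2 ^ s), ‖(ltr (blk lam N i) k t : ℂ) -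
            ∑ r ∈ range R, (0 : ℂ) * ee (β (i * N + k.val - 1) r * t)‖ ^ 2 =
            ∑ t ∈ range (2 ^ s), (1 : ℝ) := by
          apply Finset.sum_congr rfl
          intro t _
          simp only [zero_mul, Finset.sum_const_zero, sub_zero]
          rw [Complex.norm_real, Real.norm_eq_abs]
          unfold ltr
          rw [enb_sg]
          norm_num
        rw [h2, Finset.sum_const, Finset.card_range, nsmul_eq_mul, mul_one]
        push_cast
        rw [div_self (by positivity)])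
  refine h1.trans ?_
  have h3 : avZ (fun k : ZMod N => if k.val + 2 ^ s ≤ N then
      enb_er lam R (2 ^ s) b β (i * N + k.val - 1) else 1) ≤
      (∑ k ∈ range N, enb_er lam R (2 ^ s) b β (i * N + k - 1)) / N + 2 ^ s / N := by
    unfold avZ
    rw [enb_zmod N (fun j => if j + 2 ^ s ≤ N then
      enb_er lam R (2 ^ s) b β (i * N + j - 1) else 1), ← add_div]
    refine div_le_div_of_nonneg_right ?_ hNR.le
    have h4 : ∀ j ∈ range N, (if j + 2 ^ s ≤ N then
        enb_er lam R (2 ^ s) b β (i * N + j - 1) else 1) ≤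
        enb_er lam R (2 ^ s) b β (i * N + j - 1) + (if j + 2 ^ s ≤ N then (0 : ℝ) else 1) := by
      intro j _
      have h5 := enb_er_nonneg lam R (2 ^ s) b β (i * N + j - 1)
      split_ifs
      · linarith
      · linarith
    refine (Finset.sum_le_sum h4).trans ?_
    rw [Finset.sum_add_distrib]
    have h6 := enb_bad N (2 ^ s)
    push_cast at h6
    linarith
  have h7 := div_le_div_of_nonneg_right h3 hδ.le
  linarith

theorem enb_harm (M X : ℕ) (hM : M ≤ X) (hX : 3 ≤ X) :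
    ∑ i ∈ Icc 1 M, 1 / (i : ℝ) ≤ 2 * Real.log X := by
  have hlog : 1 ≤ Real.log X := by
    rw [Real.le_log_iff_exp_le (by positivity)]
    have : (3 : ℝ) ≤ X := by exact_mod_cast hX
    exact (Real.exp_one_lt_d9.le.trans (by norm_num)).trans this
  have h1 := harmonic_le_one_add_log M
  rw [harmonic_eq_sum_Icc] at h1
  push_cast at h1
  have h2 : ∑ i ∈ Icc 1 M, 1 / (i : ℝ) = ∑ i ∈ Icc 1 M, ((i : ℝ))⁻¹ := by
    apply Finset.sum_congr rfl
    intro i _
    rw [one_div]
  rw [h2]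
  rcases Nat.eq_zero_or_pos M with h | h
  · subst h
    simp
    linarith
  · have h3 : Real.log M ≤ Real.log X :=
      Real.log_le_log (by exact_mod_cast h) (by exact_mod_cast hM)
    linarith

theorem enb_lg (X : ℕ) (f : ℕ → ℝ) (hf : ∀ n, 0 ≤ f n) :
    EB.lg X (fun n => if n ≤ 1 then 0 else f (n - 1)) ≤ EB.lg X f := by
  unfold EB.lg
  rcases Nat.eq_zero_or_pos X with h | h
  · subst h
    simp
  have h1 : ∑ n ∈ Icc 1 X, (if n ≤ 1 then 0 else f (n - 1)) / (n : ℝ) =
      ∑ n ∈ Icc 2 X, f (n - 1) / (n : ℝ) := by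
    symm
    apply Finset.sum_subset_zero_on_sdiff
    · intro n hn
      rw [Finset.mem_Icc] at hn ⊢
      omega
    · intro n hn
      rw [Finset.mem_sdiff, Finset.mem_Icc, Finset.mem_Icc] at hn
      rw [if_pos (by omega), zero_div]
    · intro n hn
      rw [Finset.mem_Icc] at hn
      rw [if_neg (by omega)]
  rw [h1]
  have h2 : ∑ n ∈ Icc 2 X, f (n - 1) / (n : ℝ) ≤ ∑ n ∈ Icc 2 X, f (n - 1) / ((n - 1 : ℕ) : ℝ) := by
    apply Finset.sum_le_sum
    intro n hn
    rw [Finset.mem_Icc] at hn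
    refine div_le_div_of_nonneg_left (hf _) ?_ ?_
    · exact_mod_cast (by omega : 0 < n - 1)
    · exact_mod_cast (by omega : n - 1 ≤ n)
  refine h2.trans ?_
  have h3 : ∑ n ∈ Icc 2 X, f (n - 1) / ((n - 1 : ℕ) : ℝ) = ∑ m ∈ Icc 1 (X - 1), f m / (m : ℝ) := by
    refine Finset.sum_nbij' (fun n => n - 1) (fun m => m + 1) ?_ ?_ ?_ ?_ ?_
    · intro n hn
      rw [Finset.mem_Icc] at hn ⊢
      omega
    · intro m hm
      rw [Finset.mem_Icc] at hm ⊢
      omega
    · intro n hn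
      rw [Finset.mem_Icc] at hn
      omega
    · intro m hm
      omega
    · intro n _
      rfl
  rw [h3]
  apply Finset.sum_le_sum_of_subset_of_nonneg
  · intro m hm
    rw [Finset.mem_Icc] at hm ⊢
    omega
  · intro m _ _
    have := hf m
    positivity

theorem enb_delta (ε : ℝ) (hε : 0 < ε) : ∃ δ : ℝ, 0 < δ ∧ δ ≤ 1 / 2 ∧
    4 * δ * Real.log (1 / δ) ≤ ε / 8 := by
  set u : ℝ := min (1 / 2) (ε / 64) with hu
  have hu0 : 0 < u := lt_min (by norm_num) (by positivity)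
  have hu1 : u ≤ 1 / 2 := min_le_left _ _
  have hu2 : u ≤ ε / 64 := min_le_right _ _
  refine ⟨u ^ 2, by positivity, by nlinarith, ?_⟩
  have h1 : Real.log (1 / u ^ 2) = 2 * Real.log (1 / u) := by
    rw [one_div, one_div, ← inv_pow, Real.log_pow]
    push_cast
    ring
  have h2 : Real.log (1 / u) ≤ 1 / u := by
    have := Real.log_le_sub_one_of_pos (by positivity : 0 < 1 / u)
    linarith
  rw [h1]
  have h3 : 4 * u ^ 2 * (2 * Real.log (1 / u)) ≤ 4 * u ^ 2 * (2 * (1 / u)) :=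
    mul_le_mul_of_nonneg_left (by linarith) (by positivity)
  have h4 : 4 * u ^ 2 * (2 * (1 / u)) = 8 * u := by
    field_simp
    ring
  linarith

theorem pf_ENB (hW : T_WNT) (hL : T_BLL) : T_ENB := by
  intro ε hε
  obtain ⟨δ, hδ0, hδ1, hδ⟩ := enb_delta ε hε
  refine ⟨δ * ε / 8, by positivity, fun R => ?_⟩
  obtain ⟨s₀, hs₀⟩ := hW δ hδ0 hδ1 R
  refine ⟨s₀, fun s hs => ?_⟩
  refine ⟨max 2 ⌈8 * 2 ^ s / (δ * ε)⌉₊, ?_⟩
  intro X N _ lam hN hNX hlam hbase
  have hN2 : 2 ≤ N := (le_max_left _ _).trans hN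
  have hNR : (0 : ℝ) < N := by exact_mod_cast (by omega : 0 < N)
  have hN3 : 8 * 2 ^ s / (δ * ε) ≤ (N : ℝ) :=
    (Nat.le_ceil _).trans (by exact_mod_cast (le_max_right _ _).trans hN)
  have hX3 : 3 ≤ X := by omega
  obtain ⟨b, β, hb, hlg⟩ := hbase
  have hlg' : EB.lg X (enb_er lam R (2 ^ s) b β) ≤ δ * ε / 8 * Real.log X := hlg
  set er : ℕ → ℝ := enb_er lam R (2 ^ s) b β with her
  have her0 : ∀ n, 0 ≤ er n := fun n => enb_er_nonneg lam R (2 ^ s) b β n
  set D : ℝ := 4 * δ * Real.log (1 / δ) with hD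
  set M : ℕ := X / N - 1 with hM
  have hMX : M ≤ X := (Nat.sub_le _ _).trans (Nat.div_le_self _ _)
  have hlog : 0 ≤ Real.log X := Real.log_natCast_nonneg X
  -- one block
  have hblock : ∀ i ∈ Icc 1 M, 1 / (i : ℝ) *
      (ent (unif N) (fun n => wd (blk lam N i) (2 ^ s) n) / 2 ^ s) ≤
      (D + 2 ^ s / N / δ) * (1 / (i : ℝ)) +
        1 / δ * (1 / (i : ℝ) * ((∑ k ∈ range N, er (i * N + k - 1)) / N)) := by
    intro i hi
    have hi1 := (Finset.mem_Icc.mp hi).1
    have h1 := enb_block δ D hδ0 R s N i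
      (fun x b β E hb hE => hs₀ s N x b β E hs hb hE) lam hi1 hlam b β hb
    have h2 := mul_le_mul_of_nonneg_left h1 (by positivity : (0 : ℝ) ≤ 1 / (i : ℝ))
    refine h2.trans (le_of_eq ?_)
    rw [her]
    field_simp
    ring
  refine (Finset.sum_le_sum hblock).trans ?_
  rw [Finset.sum_add_distrib, ← Finset.mul_sum, ← Finset.mul_sum]
  -- the harmonic sum
  have hH := enb_harm M X hMX hX3
  have hH0 : 0 ≤ ∑ i ∈ Icc 1 M, 1 / (i : ℝ) := Finset.sum_nonneg fun i _ => by positivity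
  have hc : D + 2 ^ s / N / δ ≤ ε / 8 + ε / 8 := by
    refine add_le_add hδ ?_
    rw [div_div, div_le_iff₀ (by positivity)]
    rw [div_le_iff₀ (by positivity)] at hN3
    nlinarith
  -- the errors
  have hA : ∑ i ∈ Icc 1 M, 1 / (i : ℝ) * ((∑ k ∈ range N, er (i * N + k - 1)) / N) ≤
      2 * (δ * ε / 8 * Real.log X) := by
    have h1 := hL X N (fun n => if n ≤ 1 then 0 else er (n - 1)) (by omega) (fun n => by
      split_ifs
      · exact le_rfl
      · exact her0 _)
    have h2 := enb_lg X er her0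
    have h3 : ∑ i ∈ Icc 1 M, 1 / (i : ℝ) * ((∑ k ∈ range N, er (i * N + k - 1)) / N) =
        ∑ i ∈ Icc 1 (X / N - 1), 1 / (i : ℝ) * ((∑ k ∈ range N,
          (fun n => if n ≤ 1 then 0 else er (n - 1)) (i * N + k)) / N) := by
      apply Finset.sum_congr rfl
      intro i hi
      have hi1 := (Finset.mem_Icc.mp hi).1
      congr 2
      apply Finset.sum_congr rfl
      intro k _
      have h4 : N ≤ i * N := Nat.le_mul_of_pos_left N hi1
      simp only
      rw [if_neg (by omega)]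
    rw [h3]
    linarith
  have h5 : (D + 2 ^ s / N / δ) * ∑ i ∈ Icc 1 M, 1 / (i : ℝ) ≤
      (ε / 8 + ε / 8) * (2 * Real.log X) :=
    mul_le_mul hc hH hH0 (by positivity)
  have h6 : 1 / δ * ∑ i ∈ Icc 1 M, 1 / (i : ℝ) * ((∑ k ∈ range N, er (i * N + k - 1)) / N) ≤
      1 / δ * (2 * (δ * ε / 8 * Real.log X)) :=
    mul_le_mul_of_nonneg_left hA (by positivity)
  have h7 : 1 / δ * (2 * (δ * ε / 8 * Real.log X)) = ε / 4 * Real.log X := by
    field_simp
    ring
  have h8 : 0 ≤ ε * Real.log X := mul_nonneg hε.le hlog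
  linarith

end Pool.Agent.H89.ES
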